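import Pool.Agent.H30.Sort

set_option autoImplicit false
open Pool.Agent.H30.SortDefs

namespace Pool.Agent.Results.MP_fb91b8_co.Counter18

theorem result : pi0 12 = [6, 5, 4, 3, 12, 2, 11, 1, 10, 9, 8, 7] ∧
    ∃ (n : ℕ) (c γ : Cyc n), c.1 = finRotate n ∧ (Gamma n).Reachable c γ ∧
      invL (pi0 n) < (Gamma n).dist c γ := by
  refine ⟨by decide +kernel, 18, _, _, rfl, Pool.Agent.H30.Sort.main.1, ?_⟩
  have h : invL (pi0 18) = 82 := by decide +kernel
  have := Pool.Agent.H30.Sort.main.2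
  omega

end Pool.Agent.Results.MP_fb91b8_co.Counter18
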